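import Mathlib

/-!
# Admissible polynomials (L-space type Alexander polynomials) and roots on the unit circle
-/

set_option autoImplicit false

namespace Pool.Agent.Helper82_Alex

open Polynomial Finset

/-- For exponents `n 0 < n 1 < ... < n k` this is `T ^ (n k) * Δ(T)`, where
`Δ(T) = (-1)^(k+1) + ∑ j, (-1)^(k-j) (T^(n j) + T^(-(n j)))` is the admissible Laurent polynomial
with the `k + 1` exponents `n 0, ..., n k`. -/
noncomputable def alexPoly {k : ℕ} (n : Fin (k + 1) → ℕ) : ℂ[X] :=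
  C ((-1) ^ (k + 1)) * X ^ (n (Fin.last k)) +
    ∑ j : Fin (k + 1), C ((-1) ^ (k - (j : ℕ))) *
      (X ^ (n (Fin.last k) + n j) + X ^ (n (Fin.last k) - n j))

/-- The real trigonometric polynomial `Δ(e^{iθ})`. -/
noncomputable def tr {k : ℕ} (n : Fin (k + 1) → ℕ) (θ : ℝ) : ℝ :=
  (-1) ^ (k + 1) + ∑ j : Fin (k + 1), (-1) ^ (k - (j : ℕ)) * (2 * Real.cos (n j * θ))

lemma exp_pow (θ : ℝ) (m : ℕ) :
    Complex.exp (θ * Complex.I) ^ m = Complex.exp ((m * θ : ℝ) * Complex.I) := by
  rw [← Complex.exp_nat_mul]; congr 1; push_cast; ring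

lemma two_cos (x : ℝ) : ((2 * Real.cos x : ℝ) : ℂ) =
    Complex.exp (x * Complex.I) + Complex.exp (-(x * Complex.I)) := by
  push_cast; rw [Complex.cos]; ring_nf

lemma alexPoly_eval {k : ℕ} (n : Fin (k + 1) → ℕ) (hn : Monotone n) (θ : ℝ) :
    (alexPoly n).eval (Complex.exp (θ * Complex.I)) =
      Complex.exp ((n (Fin.last k) * θ : ℝ) * Complex.I) * (tr n θ : ℝ) := by
  have hle : ∀ j, n j ≤ n (Fin.last k) := fun j => hn (Fin.le_last j)
  simp only [alexPoly, eval_add, eval_mul, eval_C, eval_pow, eval_X, eval_finsetSum, tr]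
  push_cast
  rw [mul_add, mul_sum]
  congr 1
  · rw [exp_pow]; push_cast; ring
  · refine sum_congr rfl fun j _ => ?_
    have h1 := two_cos (n j * θ)
    push_cast at h1
    rw [h1, exp_pow, exp_pow]
    have e1 : Complex.exp (((n (Fin.last k) + n j : ℕ) * θ : ℝ) * Complex.I) =
        Complex.exp ((n (Fin.last k) * θ : ℝ) * Complex.I) *
          Complex.exp ((n j : ℂ) * θ * Complex.I) := by
      rw [← Complex.exp_add]; congr 1; push_cast; ring
    have e2 : Complex.exp (((n (Fin.last k) - n j : ℕ) * θ : ℝ) * Complex.I) =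
        Complex.exp ((n (Fin.last k) * θ : ℝ) * Complex.I) *
          Complex.exp (-((n j : ℂ) * θ * Complex.I)) := by
      rw [← Complex.exp_add]; congr 1; push_cast [Nat.cast_sub (hle j)]; ring
    rw [e1, e2]; push_cast; ring

lemma tr_continuous {k : ℕ} (n : Fin (k + 1) → ℕ) : Continuous (tr n) := by
  unfold tr; fun_prop

/-- the alternating sum -/
lemma alt_sum (k : ℕ) : ((-1 : ℝ)) ^ (k + 1) + ∑ j : Fin (k + 1), (-1 : ℝ) ^ (k - (j : ℕ)) * 2 = 1 := by
  rw [Fin.sum_univ_eq_sum_range (fun j => (-1 : ℝ) ^ (k - j) * 2) (k + 1)]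
  rw [← Finset.sum_range_reflect]
  have h : ∑ j ∈ range (k + 1), (-1 : ℝ) ^ (k - (k + 1 - 1 - j)) * 2 =
      ∑ j ∈ range (k + 1), (-1 : ℝ) ^ j * 2 := by
    refine sum_congr rfl fun j hj => ?_
    have : j < k + 1 := mem_range.1 hj
    congr 2; omega
  rw [h, ← sum_mul]
  induction k with
  | zero => norm_num
  | succ k ih =>
    have ih' := ih (by
      refine sum_congr rfl fun j hj => ?_
      have : j < k + 1 := mem_range.1 hj
      congr 2; omega)
    rw [sum_range_succ, add_mul, pow_succ (-1 : ℝ) (k + 1)]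
    linarith

lemma tr_zero {k : ℕ} (n : Fin (k + 1) → ℕ) : tr n 0 = 1 := by
  have := alt_sum k
  simpa [tr] using this

/-- sum of cosines over the odd points -/
lemma sum_cos_zero (N m : ℕ) (hm : 0 < m) (hmN : m < N) :
    ∑ i ∈ range N, Real.cos (m * ((2 * i + 1) * Real.pi / N)) = 0 := by
  have hN : (N : ℂ) ≠ 0 := by
    have : 0 < N := by omega
    exact_mod_cast this.ne'
  set x : ℂ := Complex.exp (2 * Real.pi * Complex.I * (m / N)) with hx
  have hx1 : x ≠ 1 := by
    intro h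
    rw [hx, Complex.exp_eq_one_iff] at h
    obtain ⟨t, ht⟩ := h
    have hpi : (2 * Real.pi * Complex.I : ℂ) ≠ 0 := by
      simp [Real.pi_ne_zero, Complex.I_ne_zero]
    have h2 : (m : ℂ) / N = t := by
      have : (2 * Real.pi * Complex.I : ℂ) * (m / N) = (2 * Real.pi * Complex.I) * t := by
        rw [ht]; ring
      exact mul_left_cancel₀ hpi this
    have h3 : (m : ℂ) = t * N := by field_simp at h2; linear_combination h2
    have h4 : (m : ℤ) = t * N := by exact_mod_cast h3
    have h5 : 0 < t := by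
      by_contra hneg
      push Not at hneg
      have : t * (N : ℤ) ≤ 0 := mul_nonpos_of_nonpos_of_nonneg hneg (by positivity)
      omega
    have h6 : (N : ℤ) ≤ t * N := by nlinarith
    omega
  have hxN : x ^ N = 1 := by
    rw [hx, ← Complex.exp_nat_mul]
    have : (N : ℂ) * (2 * Real.pi * Complex.I * (m / N)) = m * (2 * Real.pi * Complex.I) := by
      field_simp
    rw [this]
    exact_mod_cast Complex.exp_nat_mul_two_pi_mul_I m
  have hsum : ∑ i ∈ range N, x ^ i = 0 := by
    have := geom_sum_mul x N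
    rw [hxN, sub_self] at this
    exact (mul_eq_zero.1 this).resolve_right (sub_ne_zero.2 hx1)
  have key : ∑ i ∈ range N, Complex.exp ((m * ((2 * i + 1) * Real.pi / N) : ℝ) * Complex.I) = 0 := by
    have : ∀ i ∈ range N, Complex.exp ((m * ((2 * i + 1) * Real.pi / N) : ℝ) * Complex.I) =
        Complex.exp ((m * Real.pi / N : ℝ) * Complex.I) * x ^ i := by
      intro i _
      rw [hx, ← Complex.exp_nat_mul, ← Complex.exp_add]
      congr 1; push_cast; field_simp; ring
    rw [sum_congr rfl this, ← mul_sum, hsum, mul_zero]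
  have hre := congrArg Complex.re key
  rw [Complex.re_sum] at hre
  refine Eq.trans (sum_congr rfl fun i _ => ?_) hre
  exact (Complex.exp_ofReal_mul_I_re _).symm

lemma sum_tr_neg {k : ℕ} (n : Fin (k + 1) → ℕ) (hn : StrictMono n) (h0 : 0 < n 0) :
    ∑ i ∈ range (n (Fin.last k)), tr n ((2 * i + 1) * Real.pi / (n (Fin.last k))) =
      (n (Fin.last k)) * ((-1) ^ (k + 1) - 2) := by
  set N := n (Fin.last k) with hN
  have hNpos : 0 < N := lt_of_lt_of_le h0 (hn.monotone (Fin.zero_le _))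
  simp only [tr]
  rw [sum_add_distrib, sum_comm]
  rw [Fin.sum_univ_castSucc]
  have hz : ∀ j : Fin k, ∑ i ∈ range N, (-1 : ℝ) ^ (k - ((Fin.castSucc j : Fin (k + 1)) : ℕ)) *
      (2 * Real.cos (n (Fin.castSucc j) * ((2 * i + 1) * Real.pi / N))) = 0 := by
    intro j
    rw [← mul_sum, ← mul_sum, sum_cos_zero N (n (Fin.castSucc j)) _ _]
    · ring
    · exact lt_of_lt_of_le h0 (hn.monotone (Fin.zero_le _))
    · exact hn (Fin.castSucc_lt_last j)
  rw [sum_eq_zero (fun j _ => hz j)]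
  have hlast : ∀ i ∈ range N, (-1 : ℝ) ^ (k - ((Fin.last k : Fin (k + 1)) : ℕ)) *
      (2 * Real.cos (n (Fin.last k) * ((2 * i + 1) * Real.pi / N))) = -2 := by
    intro i _
    have hNr : (N : ℝ) ≠ 0 := by exact_mod_cast hNpos.ne'
    have : (n (Fin.last k) : ℝ) * ((2 * i + 1) * Real.pi / N) = Real.pi + i * (2 * Real.pi) := by
      rw [← hN]; field_simp; ring
    rw [this, Real.cos_add_nat_mul_two_pi, Real.cos_pi]
    simp
  rw [sum_congr rfl hlast]
  simp
  ring

lemma exists_neg {k : ℕ} (n : Fin (k + 1) → ℕ) (hn : StrictMono n) (h0 : 0 < n 0) :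
    ∃ θ : ℝ, 0 < θ ∧ tr n θ < 0 := by
  have hNpos : 0 < n (Fin.last k) := lt_of_lt_of_le h0 (hn.monotone (Fin.zero_le _))
  have hs := sum_tr_neg n hn h0
  have hneg : ∑ i ∈ range (n (Fin.last k)), tr n ((2 * i + 1) * Real.pi / (n (Fin.last k))) < 0 := by
    rw [hs]
    have : ((-1 : ℝ)) ^ (k + 1) ≤ 1 := by
      rcases neg_one_pow_eq_or ℝ (k + 1) with h | h <;> rw [h] <;> norm_num
    have hN : (0 : ℝ) < n (Fin.last k) := by exact_mod_cast hNpos
    nlinarith
  obtain ⟨i, hi, hlt⟩ := exists_lt_of_sum_lt (f := fun i : ℕ => tr n ((2 * i + 1) * Real.pi / (n (Fin.last k))))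
    (g := fun _ => (0 : ℝ)) (s := range (n (Fin.last k))) (by simpa using hneg)
  refine ⟨_, ?_, hlt⟩
  have hN : (0 : ℝ) < n (Fin.last k) := by exact_mod_cast hNpos
  positivity

end Pool.Agent.Helper82_Alex
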