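import Mathlib

/-!
# Cable-type polynomials have a simple root on the unit circle
-/

set_option autoImplicit false

namespace Pool.Agent.Helper82_Alex

open Polynomial

lemma eval_ne_zero_of_prime_order (A : ℤ[X]) (hA : IsUnit (A.eval 1)) (y : ℕ) (hy : y.Prime)
    (μ : ℂ) (hμ : IsPrimitiveRoot μ y) : (A.map (Int.castRingHom ℂ)).eval μ ≠ 0 := by
  intro h
  have h1 : aeval μ A = 0 := by
    rw [aeval_def, ← eval_map]; exact h
  have h2 : minpoly ℤ μ ∣ A :=
    minpoly.isIntegrallyClosed_dvd (hμ.isIntegral hy.pos) h1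
  rw [← cyclotomic_eq_minpoly hμ hy.pos] at h2
  obtain ⟨B, hB⟩ := h2
  have h3 : A.eval 1 = y * B.eval 1 := by
    have := Fact.mk hy
    rw [hB, eval_mul, eval_one_cyclotomic_prime]
  have h4 : IsUnit (y : ℤ) := isUnit_of_dvd_unit (Dvd.intro _ h3.symm) hA
  rw [Int.isUnit_iff] at h4
  have := hy.two_le
  omega

lemma rootMultiplicity_X_pow_sub_one (m : ℕ) (hm : 0 < m) (ζ : ℂ) (hζ : ζ ^ m = 1) :
    ((X : ℂ[X]) ^ m - 1).rootMultiplicity ζ = 1 := by
  have hne : (X : ℂ[X]) ^ m - 1 ≠ 0 := by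
    have := X_pow_sub_C_ne_zero hm (1 : ℂ)
    simpa using this
  have hr : ((X : ℂ[X]) ^ m - 1).IsRoot ζ := by simp [hζ]
  have h1 := (rootMultiplicity_pos hne).2 hr
  have h2 : ¬ 1 < ((X : ℂ[X]) ^ m - 1).rootMultiplicity ζ := by
    rw [one_lt_rootMultiplicity_iff_isRoot hne]
    rintro ⟨-, h⟩
    have hz : ζ ≠ 0 := by
      rintro rfl
      rw [zero_pow hm.ne'] at hζ
      exact zero_ne_one hζ
    simp only [derivative_sub, derivative_X_pow, derivative_one, sub_zero, IsRoot.def, eval_mul,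
      eval_C, eval_pow, eval_X] at h
    rcases mul_eq_zero.1 h with h | h
    · have : (m : ℂ) ≠ 0 := by exact_mod_cast hm.ne'
      exact this h
    · exact pow_ne_zero _ hz h
  omega

theorem cable_simple (p q : ℕ) (hp : 2 ≤ p) (hq : 2 ≤ q) (hpq : p.Coprime q) (A D : ℤ[X])
    (hA : IsUnit (A.eval 1))
    (hD : D * ((X ^ p - 1) * (X ^ q - 1)) = A.comp (X ^ p) * ((X ^ (p * q) - 1) * (X - 1))) :
    ∃ ζ : ℂ, ‖ζ‖ = 1 ∧ (D.map (Int.castRingHom ℂ)).rootMultiplicity ζ = 1 := by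
  obtain ⟨x, hx, hxp⟩ := Nat.exists_prime_and_dvd (show p ≠ 1 by omega)
  obtain ⟨y, hy, hyq⟩ := Nat.exists_prime_and_dvd (show q ≠ 1 by omega)
  have hxy : x.Coprime y := Nat.Coprime.coprime_dvd_left hxp (hpq.coprime_dvd_right hyq)
  have hne : x * y ≠ 0 := mul_ne_zero hx.ne_zero hy.ne_zero
  set ζ : ℂ := Complex.exp (2 * Real.pi * Complex.I / ((x * y : ℕ) : ℂ)) with hζdef
  have hζ : IsPrimitiveRoot ζ (x * y) := Complex.isPrimitiveRoot_exp _ hne
  have hyp : ¬ y ∣ p := fun h => by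
    have := Nat.dvd_gcd h hyq
    rw [hpq] at this
    exact hy.one_lt.ne' (Nat.dvd_one.1 this)
  have hxq : ¬ x ∣ q := fun h => by
    have := Nat.dvd_gcd hxp h
    rw [hpq] at this
    exact hx.one_lt.ne' (Nat.dvd_one.1 this)
  have hζp : ζ ^ p ≠ 1 := fun h => hyp ((dvd_mul_left y x).trans (hζ.dvd_of_pow_eq_one _ h))
  have hζq : ζ ^ q ≠ 1 := fun h => hxq ((dvd_mul_right x y).trans (hζ.dvd_of_pow_eq_one _ h))
  have hζ1 : ζ ≠ 1 := fun h => hζp (by rw [h, one_pow])
  have hζpq : ζ ^ (p * q) = 1 := by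
    rw [hζ.pow_eq_one_iff_dvd]
    exact Nat.mul_dvd_mul hxp hyq
  -- order of `ζ ^ p`
  have hprim : IsPrimitiveRoot (ζ ^ p) y := by
    obtain ⟨p', hp'⟩ := hxp
    have h1 : IsPrimitiveRoot (ζ ^ x) y := hζ.pow (Nat.mul_pos hx.pos hy.pos) rfl
    have h2 : p'.Coprime y := by
      have h3 : Nat.Coprime p y := hpq.coprime_dvd_right hyq
      rw [hp'] at h3
      exact Nat.Coprime.coprime_mul_left h3
    rw [hp', pow_mul]
    exact h1.pow_of_coprime p' h2
  refine ⟨ζ, ?_, ?_⟩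
  · exact hζ.norm'_eq_one hne
  · have hmap := congrArg (Polynomial.map (Int.castRingHom ℂ)) hD
    simp only [Polynomial.map_mul, Polynomial.map_sub, Polynomial.map_pow, map_X,
      Polynomial.map_one, map_comp] at hmap
    set D' := D.map (Int.castRingHom ℂ)
    set A' := A.map (Int.castRingHom ℂ)
    have hAζ : (A'.comp (X ^ p)).eval ζ ≠ 0 := by
      rw [eval_comp]; simp only [eval_pow, eval_X]
      exact eval_ne_zero_of_prime_order A hA y hy _ hprim
    have hpos : ∀ m : ℕ, 0 < m → (X : ℂ[X]) ^ m - 1 ≠ 0 := fun m hm => by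
      have := X_pow_sub_C_ne_zero hm (1 : ℂ)
      simpa using this
    have hX1 : (X : ℂ[X]) - 1 ≠ 0 := by
      have := X_sub_C_ne_zero (1 : ℂ)
      simpa using this
    have hA0 : A'.comp (X ^ p) ≠ 0 := by
      intro h; rw [h, eval_zero] at hAζ; exact hAζ rfl
    have hpp : 0 < p * q := by positivity
    have hR : A'.comp (X ^ p) * ((X ^ (p * q) - 1) * (X - 1)) ≠ 0 :=
      mul_ne_zero hA0 (mul_ne_zero (hpos _ hpp) hX1)
    have hL : D' * ((X ^ p - 1) * (X ^ q - 1)) ≠ 0 := by rw [hmap]; exact hR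
    have hm := congrArg (rootMultiplicity ζ) hmap
    rw [rootMultiplicity_mul hL, rootMultiplicity_mul hR,
      rootMultiplicity_mul (right_ne_zero_of_mul hL),
      rootMultiplicity_mul (right_ne_zero_of_mul hR),
      rootMultiplicity_X_pow_sub_one (p * q) hpp ζ hζpq,
      rootMultiplicity_eq_zero (p := A'.comp (X ^ p)) hAζ,
      rootMultiplicity_eq_zero (p := (X : ℂ[X]) ^ p - 1) (by
        simp only [IsRoot.def, eval_sub, eval_pow, eval_X, eval_one, sub_eq_zero]; exact hζp),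
      rootMultiplicity_eq_zero (p := (X : ℂ[X]) ^ q - 1) (by
        simp only [IsRoot.def, eval_sub, eval_pow, eval_X, eval_one, sub_eq_zero]; exact hζq),
      rootMultiplicity_eq_zero (p := (X : ℂ[X]) - 1) (by
        simp only [IsRoot.def, eval_sub, eval_X, eval_one, sub_eq_zero]; exact hζ1)] at hm
    omega

end Pool.Agent.Helper82_Alex
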