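import Pool.Agent.Helper82_Alex.Dominant

/-!
# A coefficient criterion excluding unit-circle roots of multiplicity three
-/

set_option autoImplicit false

namespace Pool.Agent.Helper82_Alex

open Polynomial Finset

lemma euler_coeff (F : ℂ[X]) (i : ℕ) : (euler F).coeff i = i * F.coeff i := by
  cases i with
  | zero => simp [euler]
  | succ i =>
    simp only [euler, coeff_X_mul, coeff_derivative]
    push_cast
    ring

lemma euler_natDegree_le (F : ℂ[X]) : (euler F).natDegree ≤ F.natDegree := by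
  rw [natDegree_le_iff_coeff_eq_zero]
  intro m hm
  rw [euler_coeff, coeff_eq_zero_of_natDegree_lt hm, mul_zero]

lemma triple_bound (F : ℂ[X]) (ζ : ℂ) (hζ : ‖ζ‖ = 1) (h : (X - C ζ) ^ 3 ∣ F) :
    ‖F.coeff F.natDegree‖ * (F.natDegree : ℝ) ^ 2 ≤
      ∑ i ∈ range F.natDegree, ‖F.coeff i‖ * |2 * (i : ℝ) - F.natDegree| * i := by
  set d := F.natDegree with hd
  have hd2 := euler_dvd _ ζ 3 h
  have hd1 := euler_dvd _ ζ 2 hd2
  have e1 : (euler F).eval ζ = 0 := by
    obtain ⟨Q, hQ⟩ := hd2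
    rw [hQ]; simp
  have e2 : (euler (euler F)).eval ζ = 0 := by
    obtain ⟨Q, hQ⟩ := hd1
    rw [hQ]; simp
  have l1 : (euler F).natDegree < d + 1 := Nat.lt_succ_of_le (euler_natDegree_le F)
  have l2 : (euler (euler F)).natDegree < d + 1 :=
    Nat.lt_succ_of_le ((euler_natDegree_le _).trans (euler_natDegree_le F))
  rw [eval_eq_sum_range' l1] at e1
  rw [eval_eq_sum_range' l2] at e2
  simp only [euler_coeff] at e1 e2
  have key : ∑ i ∈ range (d + 1), (F.coeff i * (2 * (i : ℂ) - d) * i) * ζ ^ i = 0 := by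
    have : ∑ i ∈ range (d + 1), (F.coeff i * (2 * (i : ℂ) - d) * i) * ζ ^ i =
        2 * ∑ i ∈ range (d + 1), (i : ℂ) * ((i : ℂ) * F.coeff i) * ζ ^ i -
          d * ∑ i ∈ range (d + 1), (i : ℂ) * F.coeff i * ζ ^ i := by
      rw [mul_sum, mul_sum, ← sum_sub_distrib]
      refine sum_congr rfl fun i _ => by ring
    rw [this, e1, e2]; ring
  rw [sum_range_succ] at key
  have htop : (F.coeff d * (2 * (d : ℂ) - d) * d) * ζ ^ d =
      -∑ i ∈ range d, (F.coeff i * (2 * (i : ℂ) - d) * i) * ζ ^ i := by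
    linear_combination key
  have hn := congrArg norm htop
  rw [norm_neg] at hn
  have hl : ‖(F.coeff d * (2 * (d : ℂ) - d) * d) * ζ ^ d‖ = ‖F.coeff d‖ * (d : ℝ) ^ 2 := by
    have : (2 * (d : ℂ) - d) = d := by ring
    rw [this, norm_mul, norm_mul, norm_mul, norm_pow, hζ, one_pow, Complex.norm_natCast]
    ring
  rw [← hl, hn]
  refine (norm_sum_le _ _).trans (le_of_eq (sum_congr rfl fun i _ => ?_))
  rw [norm_mul, norm_mul, norm_mul, norm_pow, hζ, one_pow, Complex.norm_natCast, mul_one]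
  congr 2
  have : (2 * (i : ℂ) - d) = ((2 * (i : ℝ) - d : ℝ) : ℂ) := by push_cast; ring
  rw [this, Complex.norm_real, Real.norm_eq_abs]

theorem criterion {k : ℕ} (n : Fin (k + 1) → ℕ) (hn : StrictMono n) (h0 : 0 < n 0) (H : ℂ[X])
    (hH : ∑ i ∈ range (alexPoly n * H).natDegree, ‖(alexPoly n * H).coeff i‖ *
        |2 * (i : ℝ) - (alexPoly n * H).natDegree| * i <
      ‖(alexPoly n * H).coeff (alexPoly n * H).natDegree‖ *
        ((alexPoly n * H).natDegree : ℝ) ^ 2) :
    ∃ ζ : ℂ, ‖ζ‖ = 1 ∧ (alexPoly n).rootMultiplicity ζ = 1 := by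
  obtain ⟨s, -, hodd⟩ := exists_odd n hn h0
  refine ⟨_, Complex.norm_exp_ofReal_mul_I s, ?_⟩
  have h3 : ¬ 3 ≤ (alexPoly n).rootMultiplicity (Complex.exp (s * Complex.I)) := by
    intro h3
    have hd3 : (X - C (Complex.exp (s * Complex.I))) ^ 3 ∣ alexPoly n * H :=
      ((pow_dvd_pow _ h3).trans (pow_rootMultiplicity_dvd _ _)).mul_right _
    have := triple_bound _ _ (Complex.norm_exp_ofReal_mul_I s) hd3
    linarith
  rcases hodd with ⟨m, hm⟩
  omega

end Pool.Agent.Helper82_Alex
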