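import Pool.Agent.Helper82_Alex.Odd

/-!
# Simple roots when the top exponent dominates
-/

set_option autoImplicit false

namespace Pool.Agent.Helper82_Alex

open Polynomial Finset

/-- the operator `X * d/dX` -/
noncomputable def euler (P : ℂ[X]) : ℂ[X] := X * derivative P

lemma euler_add (P Q : ℂ[X]) : euler (P + Q) = euler P + euler Q := by
  simp [euler, mul_add]

lemma euler_sum {ι : Type*} (s : Finset ι) (P : ι → ℂ[X]) :
    euler (∑ i ∈ s, P i) = ∑ i ∈ s, euler (P i) := by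
  simp [euler, mul_sum]

lemma euler_C_mul (c : ℂ) (P : ℂ[X]) : euler (C c * P) = C c * euler P := by
  simp only [euler, derivative_C_mul]; ring

lemma euler_X_pow (t : ℕ) : euler ((X : ℂ[X]) ^ t) = C (t : ℂ) * X ^ t := by
  cases t with
  | zero => simp [euler]
  | succ t =>
    simp only [euler, derivative_X_pow, Nat.add_sub_cancel]
    ring

lemma euler_dvd (P : ℂ[X]) (ζ : ℂ) (m : ℕ) (h : (X - C ζ) ^ m ∣ P) :
    (X - C ζ) ^ (m - 1) ∣ euler P :=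
  (pow_sub_one_dvd_derivative_of_pow_dvd h).mul_left _

lemma triple_eqs {k : ℕ} (n : Fin (k + 1) → ℕ) (hn : StrictMono n) (s : ℝ)
    (h3 : 3 ≤ (alexPoly n).rootMultiplicity (Complex.exp (s * Complex.I))) :
    (∑ j : Fin (k + 1), (-1 : ℝ) ^ (k - (j : ℕ)) * (n j * Real.sin (n j * s)) = 0) ∧
      (∑ j : Fin (k + 1), (-1 : ℝ) ^ (k - (j : ℕ)) * ((n j : ℝ) ^ 2 * Real.cos (n j * s)) = 0) := by
  set ζ := Complex.exp (s * Complex.I) with hζ
  have hle : ∀ j, n j ≤ n (Fin.last k) := fun j => hn.monotone (Fin.le_last j)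
  have hd3 : (X - C ζ) ^ 3 ∣ alexPoly n :=
    (pow_dvd_pow _ h3).trans (pow_rootMultiplicity_dvd _ _)
  have hd2 := euler_dvd _ ζ 3 hd3
  have hd1 := euler_dvd _ ζ 2 hd2
  have e0 : (alexPoly n).eval ζ = 0 := by
    obtain ⟨Q, hQ⟩ := hd3
    rw [hQ]; simp
  have e1 : (euler (alexPoly n)).eval ζ = 0 := by
    obtain ⟨Q, hQ⟩ := hd2
    rw [hQ]; simp
  have e2 : (euler (euler (alexPoly n))).eval ζ = 0 := by
    obtain ⟨Q, hQ⟩ := hd1
    rw [hQ]; simp
  set N := n (Fin.last k) with hN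
  simp only [alexPoly, euler_add, euler_sum, euler_C_mul, euler_X_pow, eval_add, eval_mul, eval_C,
    eval_pow, eval_X, eval_finsetSum, ← hN] at e0 e1 e2
  have hζ0 : ζ ≠ 0 := Complex.exp_ne_zero _
  -- the two exponentials
  have ep : ∀ j, ζ ^ (N + n j) = ζ ^ N * Complex.exp ((n j * s : ℝ) * Complex.I) := by
    intro j; rw [pow_add, hζ, exp_pow s (n j)]
  have em : ∀ j, ζ ^ (N - n j) = ζ ^ N * Complex.exp (-((n j * s : ℝ) * Complex.I)) := by
    intro j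
    have h1 : ζ ^ N = ζ ^ (N - n j) * Complex.exp ((n j * s : ℝ) * Complex.I) := by
      rw [← exp_pow s (n j), ← hζ, ← pow_add, Nat.sub_add_cancel (hle j)]
    rw [h1, mul_assoc, ← Complex.exp_add]
    simp
  have cm : ∀ j, ((N - n j : ℕ) : ℂ) = (N : ℂ) - n j := fun j => by
    rw [Nat.cast_sub (hle j)]
  have hζN : ζ ^ N ≠ 0 := pow_ne_zero _ hζ0
  have E1 : ζ ^ N * ∑ j : Fin (k + 1), (-1 : ℂ) ^ (k - (j : ℕ)) * ((n j : ℂ) *
      (Complex.exp ((n j * s : ℝ) * Complex.I) - Complex.exp (-((n j * s : ℝ) * Complex.I)))) = 0 := by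
    have : ζ ^ N * ∑ j : Fin (k + 1), (-1 : ℂ) ^ (k - (j : ℕ)) * ((n j : ℂ) *
      (Complex.exp ((n j * s : ℝ) * Complex.I) - Complex.exp (-((n j * s : ℝ) * Complex.I)))) =
      ((-1) ^ (k + 1) * ((N : ℂ) * ζ ^ N) + ∑ j : Fin (k + 1), (-1 : ℂ) ^ (k - (j : ℕ)) *
        (((N + n j : ℕ) : ℂ) * ζ ^ (N + n j) + ((N - n j : ℕ) : ℂ) * ζ ^ (N - n j))) -
      N * ((-1) ^ (k + 1) * ζ ^ N + ∑ j : Fin (k + 1), (-1 : ℂ) ^ (k - (j : ℕ)) *
        (ζ ^ (N + n j) + ζ ^ (N - n j))) := by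
      rw [mul_add (N : ℂ), mul_sum, mul_sum, add_sub_add_comm, ← sum_sub_distrib]
      have : ((-1 : ℂ)) ^ (k + 1) * (N * ζ ^ N) - N * ((-1) ^ (k + 1) * ζ ^ N) = 0 := by ring
      rw [this, zero_add]
      refine sum_congr rfl fun j _ => ?_
      rw [cm, ep, em]; push_cast; ring
    rw [this, e0, e1]; ring
  have E2 : ζ ^ N * ∑ j : Fin (k + 1), (-1 : ℂ) ^ (k - (j : ℕ)) * ((n j : ℂ) ^ 2 *
      (Complex.exp ((n j * s : ℝ) * Complex.I) + Complex.exp (-((n j * s : ℝ) * Complex.I)))) = 0 := by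
    have : ζ ^ N * ∑ j : Fin (k + 1), (-1 : ℂ) ^ (k - (j : ℕ)) * ((n j : ℂ) ^ 2 *
      (Complex.exp ((n j * s : ℝ) * Complex.I) + Complex.exp (-((n j * s : ℝ) * Complex.I)))) =
      ((-1) ^ (k + 1) * ((N : ℂ) * ((N : ℂ) * ζ ^ N)) + ∑ j : Fin (k + 1), (-1 : ℂ) ^ (k - (j : ℕ)) *
        (((N + n j : ℕ) : ℂ) * (((N + n j : ℕ) : ℂ) * ζ ^ (N + n j)) +
          ((N - n j : ℕ) : ℂ) * (((N - n j : ℕ) : ℂ) * ζ ^ (N - n j)))) -
      2 * N * ((-1) ^ (k + 1) * ((N : ℂ) * ζ ^ N) + ∑ j : Fin (k + 1), (-1 : ℂ) ^ (k - (j : ℕ)) *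
        (((N + n j : ℕ) : ℂ) * ζ ^ (N + n j) + ((N - n j : ℕ) : ℂ) * ζ ^ (N - n j))) +
      N ^ 2 * ((-1) ^ (k + 1) * ζ ^ N + ∑ j : Fin (k + 1), (-1 : ℂ) ^ (k - (j : ℕ)) *
        (ζ ^ (N + n j) + ζ ^ (N - n j))) := by
      rw [mul_add (2 * N : ℂ), mul_add ((N : ℂ) ^ 2), mul_sum, mul_sum, mul_sum,
        add_sub_add_comm, ← sum_sub_distrib, add_add_add_comm, ← sum_add_distrib]
      have : ((-1 : ℂ)) ^ (k + 1) * (N * (N * ζ ^ N)) - 2 * N * ((-1) ^ (k + 1) * (N * ζ ^ N)) +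
        N ^ 2 * ((-1) ^ (k + 1) * ζ ^ N) = 0 := by ring
      rw [this, zero_add]
      refine sum_congr rfl fun j _ => ?_
      rw [cm, ep, em]; push_cast; ring
    rw [this, e0, e1, e2]; ring
  have F1 := (mul_eq_zero.1 E1).resolve_left hζN
  have F2 := (mul_eq_zero.1 E2).resolve_left hζN
  constructor
  · have h1 : ∀ x : ℝ, Complex.exp ((x : ℝ) * Complex.I) - Complex.exp (-((x : ℝ) * Complex.I)) =
        2 * Complex.I * (Real.sin x : ℝ) := by
      intro x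
      rw [Complex.ofReal_sin, Complex.sin, ← neg_mul]
      have : Complex.I * Complex.I = -1 := Complex.I_mul_I
      linear_combination (Complex.exp ((x : ℝ) * Complex.I) -
        Complex.exp (-((x : ℝ) : ℂ) * Complex.I)) * this
    simp only [h1] at F1
    have h2 : (2 * Complex.I) * ((∑ j : Fin (k + 1), (-1 : ℝ) ^ (k - (j : ℕ)) *
        (n j * Real.sin (n j * s)) : ℝ) : ℂ) = 0 := by
      rw [← F1]; push_cast; rw [mul_sum]
      refine sum_congr rfl fun j _ => by ring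
    have h3 : (2 * Complex.I : ℂ) ≠ 0 := by simp [Complex.I_ne_zero]
    exact_mod_cast (mul_eq_zero.1 h2).resolve_left h3
  · have h1 : ∀ x : ℝ, Complex.exp ((x : ℝ) * Complex.I) + Complex.exp (-((x : ℝ) * Complex.I)) =
        2 * (Real.cos x : ℝ) := by
      intro x
      have := two_cos x
      push_cast at this ⊢
      exact this.symm
    simp only [h1] at F2
    have h2 : (2 : ℂ) * ((∑ j : Fin (k + 1), (-1 : ℝ) ^ (k - (j : ℕ)) *
        ((n j : ℝ) ^ 2 * Real.cos (n j * s)) : ℝ) : ℂ) = 0 := by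
      rw [← F2]; push_cast; rw [mul_sum]
      refine sum_congr rfl fun j _ => by ring
    exact_mod_cast (mul_eq_zero.1 h2).resolve_left two_ne_zero

end Pool.Agent.Helper82_Alex
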