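import Pool.Agent.Helper82_Alex.Basic

/-!
# A unit-circle root of odd multiplicity
-/

set_option autoImplicit false

namespace Pool.Agent.Helper82_Alex

open Polynomial Finset Filter Topology

lemma alexPoly_ne_zero {k : ℕ} (n : Fin (k + 1) → ℕ) (hn : Monotone n) : alexPoly n ≠ 0 := by
  intro h
  have := alexPoly_eval n hn 0
  rw [h, tr_zero] at this
  simp at this

/-- a point where the sign of `tr n` changes from positive to nonpositive -/
lemma exists_change {k : ℕ} (n : Fin (k + 1) → ℕ) (hn : StrictMono n) (h0 : 0 < n 0) :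
    ∃ s b : ℝ, s < b ∧ tr n s = 0 ∧ (∀ t, s < t → t ≤ b → tr n t ≤ 0) ∧
      (∀ δ > 0, ∃ t, s - δ < t ∧ t < s ∧ 0 < tr n t) := by
  obtain ⟨b, hb, hneg⟩ := exists_neg n hn h0
  have hc := tr_continuous n
  set U : Set ℝ := {t | 0 ≤ t ∧ t ≤ b ∧ 0 < tr n t} with hU
  have h0U : (0 : ℝ) ∈ U := ⟨le_refl _, hb.le, by rw [tr_zero]; norm_num⟩
  have hbd : BddAbove U := ⟨b, fun t ht => ht.2.1⟩
  set s := sSup U with hs
  have hsle : s ≤ b := csSup_le ⟨0, h0U⟩ fun t ht => ht.2.1
  have hs0 : 0 ≤ s := le_csSup hbd h0U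
  have happ : ∀ δ > 0, ∃ t ∈ U, s - δ < t := fun δ hδ =>
    exists_lt_of_lt_csSup ⟨0, h0U⟩ (by linarith)
  have hge : 0 ≤ tr n s := by
    by_contra hlt
    push Not at hlt
    have : ∀ᶠ t in 𝓝 s, tr n t < 0 := (hc.tendsto s).eventually (gt_mem_nhds hlt)
    obtain ⟨ε, hε, hball⟩ := Metric.eventually_nhds_iff.1 this
    obtain ⟨t, htU, ht⟩ := happ ε hε
    have hts : t ≤ s := le_csSup hbd htU
    have := hball (y := t) (by rw [Real.dist_eq, abs_lt]; constructor <;> linarith)
    linarith [htU.2.2]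
  have hle : tr n s ≤ 0 := by
    by_contra hlt
    push Not at hlt
    have hsb : s < b := lt_of_le_of_ne hsle (by rintro h; rw [h] at hlt; linarith)
    have : ∀ᶠ t in 𝓝 s, 0 < tr n t := (hc.tendsto s).eventually (lt_mem_nhds hlt)
    obtain ⟨ε, hε, hball⟩ := Metric.eventually_nhds_iff.1 this
    set t := min b (s + ε / 2) with ht
    have h1 : s < t := lt_min hsb (by linarith)
    have h2 : t ≤ s + ε / 2 := min_le_right _ _
    have h3 := hball (y := t) (by rw [Real.dist_eq, abs_lt]; constructor <;> linarith)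
    have : t ≤ s := le_csSup hbd ⟨by linarith, min_le_left _ _, h3⟩
    linarith
  have hzero : tr n s = 0 := le_antisymm hle hge
  have hsb : s < b := lt_of_le_of_ne hsle (by rintro h; rw [h] at hzero; linarith)
  refine ⟨s, b, hsb, hzero, ?_, ?_⟩
  · intro t h1 h2
    by_contra hlt
    push Not at hlt
    have : t ≤ s := le_csSup hbd ⟨by linarith, h2, hlt⟩
    linarith
  · intro δ hδ
    obtain ⟨t, htU, ht⟩ := happ δ hδ
    refine ⟨t, ht, lt_of_le_of_ne (le_csSup hbd htU) ?_, htU.2.2⟩
    rintro h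
    have := htU.2.2
    rw [h, hzero] at this
    exact lt_irrefl _ this

lemma exp_sub_sq (θ s : ℝ) :
    (Complex.exp (θ * Complex.I) - Complex.exp (s * Complex.I)) ^ 2 =
      ((-(4 * Real.sin ((θ - s) / 2) ^ 2) : ℝ) : ℂ) * Complex.exp ((θ + s : ℝ) * Complex.I) := by
  have h1 : Complex.exp (θ * Complex.I) =
      Complex.exp (((θ + s) / 2 : ℝ) * Complex.I) * Complex.exp (((θ - s) / 2 : ℝ) * Complex.I) := by
    rw [← Complex.exp_add]; congr 1; push_cast; ring
  have h2 : Complex.exp (s * Complex.I) =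
      Complex.exp (((θ + s) / 2 : ℝ) * Complex.I) *
        Complex.exp (-(((θ - s) / 2 : ℝ) * Complex.I)) := by
    rw [← Complex.exp_add]; congr 1; push_cast; ring
  have h3 : Complex.exp (((θ - s) / 2 : ℝ) * Complex.I) -
      Complex.exp (-(((θ - s) / 2 : ℝ) * Complex.I)) =
      2 * Complex.I * (Real.sin ((θ - s) / 2) : ℝ) := by
    rw [Complex.ofReal_sin, Complex.sin]
    rw [← neg_mul]
    have : Complex.I * Complex.I = -1 := Complex.I_mul_I
    linear_combination (Complex.exp (((θ - s) / 2 : ℝ) * Complex.I) -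
      Complex.exp (-(((θ - s) / 2 : ℝ) : ℂ) * Complex.I)) * this
  have h4 : Complex.exp ((θ + s : ℝ) * Complex.I) =
      Complex.exp (((θ + s) / 2 : ℝ) * Complex.I) ^ 2 := by
    rw [← Complex.exp_nat_mul]; congr 1; push_cast; ring
  rw [h1, h2, ← mul_sub, h3, h4, mul_pow, mul_pow, mul_pow, Complex.I_sq]
  push_cast; ring

/-- Every admissible polynomial has a root of odd multiplicity on the unit circle. -/
theorem exists_odd {k : ℕ} (n : Fin (k + 1) → ℕ) (hn : StrictMono n) (h0 : 0 < n 0) :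
    ∃ s : ℝ, tr n s = 0 ∧
      Odd ((alexPoly n).rootMultiplicity (Complex.exp (s * Complex.I))) := by
  obtain ⟨s, b, hsb, hs, hright, hleft⟩ := exists_change n hn h0
  refine ⟨s, hs, ?_⟩
  by_contra hodd
  rw [Nat.not_odd_iff_even] at hodd
  obtain ⟨l, hl⟩ := hodd
  set ζ := Complex.exp (s * Complex.I) with hζ
  have hP := alexPoly_ne_zero n hn.monotone
  obtain ⟨Q, hQ, hQ0⟩ := exists_eq_pow_rootMultiplicity_mul_and_not_dvd (alexPoly n) hP ζ
  rw [hl, ← two_mul] at hQ
  have hQζ : Q.eval ζ ≠ 0 := by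
    intro h
    exact hQ0 (dvd_iff_isRoot.2 h)
  set N := n (Fin.last k) with hN
  -- the cofactor
  set G : ℝ → ℂ := fun θ => (-1) ^ l * Complex.exp ((l * (θ + s) - N * θ : ℝ) * Complex.I) *
    Q.eval (Complex.exp (θ * Complex.I)) with hG
  have hGc : Continuous G := by
    have : Continuous fun θ : ℝ => Q.eval (Complex.exp (θ * Complex.I)) :=
      Q.continuous.comp (by fun_prop)
    simp only [hG]
    exact (continuous_const.mul (by fun_prop)).mul this
  have hfac : ∀ θ : ℝ, ((tr n θ : ℝ) : ℂ) =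
      (((4 * Real.sin ((θ - s) / 2) ^ 2) ^ l : ℝ) : ℂ) * G θ := by
    intro θ
    have h1 := alexPoly_eval n hn.monotone θ
    rw [hQ, eval_mul, eval_pow, eval_sub, eval_X, eval_C, pow_mul, exp_sub_sq] at h1
    have h2 : Complex.exp ((-(N * θ) : ℝ) * Complex.I) *
        Complex.exp ((N * θ : ℝ) * Complex.I) = 1 := by
      rw [← Complex.exp_add, ← Complex.exp_zero]; congr 1; push_cast; ring
    have h3 : ((tr n θ : ℝ) : ℂ) = Complex.exp ((-(N * θ) : ℝ) * Complex.I) *
        (Complex.exp ((N * θ : ℝ) * Complex.I) * (tr n θ : ℝ)) := by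
      rw [← mul_assoc, h2, one_mul]
    rw [h3, ← h1]
    simp only [hG]
    have h4 : Complex.exp ((l * (θ + s) - N * θ : ℝ) * Complex.I) =
        Complex.exp ((-(N * θ) : ℝ) * Complex.I) *
          Complex.exp ((θ + s : ℝ) * Complex.I) ^ l := by
      rw [← Complex.exp_nat_mul, ← Complex.exp_add]; congr 1; push_cast; ring
    rw [h4, mul_pow]
    push_cast
    rw [neg_pow]
    ring
  have hGs : G s ≠ 0 := by
    simp only [hG]
    refine mul_ne_zero (mul_ne_zero (pow_ne_zero _ (by norm_num)) (Complex.exp_ne_zero _)) ?_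
    exact hQζ
  -- near s, the sine factor does not vanish
  have hsin : ∀ᶠ θ in 𝓝[≠] s, 0 < (4 * Real.sin ((θ - s) / 2) ^ 2) ^ l := by
    have : ∀ᶠ θ in 𝓝 s, |θ - s| < 1 := by
      have h : Metric.ball s 1 ∈ 𝓝 s := Metric.ball_mem_nhds s one_pos
      filter_upwards [h] with θ hθ
      simpa [Real.dist_eq] using hθ
    rw [eventually_nhdsWithin_iff]
    filter_upwards [this] with θ hθ hne
    have hne' : (θ - s) / 2 ≠ 0 := by
      intro h
      apply hne
      simp only [Set.mem_singleton_iff]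
      linarith
    rw [abs_lt] at hθ
    have hsn : Real.sin ((θ - s) / 2) ≠ 0 := by
      rw [Ne, Real.sin_eq_zero_iff_of_lt_of_lt]
      · exact hne'
      · linarith [Real.pi_gt_three]
      · linarith [Real.pi_gt_three]
    positivity
  have him : ∀ᶠ θ in 𝓝[≠] s, (G θ).im = 0 := by
    filter_upwards [hsin] with θ hθ
    have := congrArg Complex.im (hfac θ)
    rw [Complex.ofReal_im, Complex.im_ofReal_mul] at this
    rcases mul_eq_zero.1 this.symm with h | h
    · exact absurd h hθ.ne'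
    · exact h
  have hims : (G s).im = 0 := by
    have h1 : Tendsto (fun θ => (G θ).im) (𝓝[≠] s) (𝓝 (G s).im) :=
      ((Complex.continuous_im.comp hGc).tendsto s).mono_left nhdsWithin_le_nhds
    have h2 : Tendsto (fun θ => (G θ).im) (𝓝[≠] s) (𝓝 0) :=
      (tendsto_congr' him).2 tendsto_const_nhds
    exact tendsto_nhds_unique h1 h2
  have hres : (G s).re ≠ 0 := by
    intro h
    exact hGs (Complex.ext h hims)
  have hre : ∀ θ, tr n θ = (4 * Real.sin ((θ - s) / 2) ^ 2) ^ l * (G θ).re := by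
    intro θ
    have := congrArg Complex.re (hfac θ)
    rwa [Complex.ofReal_re, Complex.re_ofReal_mul] at this
  have hcre : Continuous fun θ => (G θ).re := Complex.continuous_re.comp hGc
  rcases lt_or_gt_of_ne hres with hlt | hgt
  · -- negative: then tr ≤ 0 near s, contradicting positive values to the left
    have : ∀ᶠ θ in 𝓝 s, (G θ).re < 0 := (hcre.tendsto s).eventually (gt_mem_nhds hlt)
    obtain ⟨ε, hε, hball⟩ := Metric.eventually_nhds_iff.1 this
    obtain ⟨t, ht1, ht2, ht3⟩ := hleft ε hε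
    have h := hball (y := t) (by rw [Real.dist_eq, abs_lt]; constructor <;> linarith)
    rw [hre t] at ht3
    have hnn : 0 ≤ (4 * Real.sin ((t - s) / 2) ^ 2) ^ l := by positivity
    nlinarith
  · have h1 : ∀ᶠ θ in 𝓝 s, 0 < (G θ).re := (hcre.tendsto s).eventually (lt_mem_nhds hgt)
    rw [eventually_nhdsWithin_iff] at hsin
    obtain ⟨ε, hε, hball⟩ := Metric.eventually_nhds_iff.1 (h1.and hsin)
    set t := min b (s + ε / 2) with ht
    have h2 : s < t := lt_min hsb (by linarith)
    have h3 : t ≤ s + ε / 2 := min_le_right _ _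
    obtain ⟨h4, h5⟩ := hball (y := t) (by rw [Real.dist_eq, abs_lt]; constructor <;> linarith)
    have h6 := h5 (by simp only [Set.mem_compl_iff, Set.mem_singleton_iff]; exact h2.ne')
    have h7 := hright t h2 (min_le_left _ _)
    rw [hre t] at h7
    have := mul_pos h6 h4
    linarith

end Pool.Agent.Helper82_Alex
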