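import Pool.Agent.Helper82_Alex.Dominant

/-!
# Simple roots when the top exponent dominates: conclusion
-/

set_option autoImplicit false

namespace Pool.Agent.Helper82_Alex

open Polynomial Finset

lemma no_triple {k : ℕ} (n : Fin (k + 1) → ℕ) (hn : StrictMono n) (h0 : 0 < n 0)
    (hS : ∑ j : Fin k, n j.castSucc ≤ n (Fin.last k)) (s : ℝ) (hs : tr n s = 0) :
    ¬ 3 ≤ (alexPoly n).rootMultiplicity (Complex.exp (s * Complex.I)) := by
  intro h3
  obtain ⟨hsin, hcos⟩ := triple_eqs n hn s h3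
  set N := n (Fin.last k) with hN
  have hNpos : 0 < N := lt_of_lt_of_le h0 (hn.monotone (Fin.zero_le _))
  have hNr : (0 : ℝ) < N := by exact_mod_cast hNpos
  set w : Fin (k + 1) → ℂ := fun j =>
    ⟨(-1 : ℝ) ^ (k - (j : ℕ)) * ((n j : ℝ) ^ 2 * Real.cos (n j * s)),
      N * ((-1 : ℝ) ^ (k - (j : ℕ)) * (n j * Real.sin (n j * s)))⟩ with hw
  have hsum : ∑ j, w j = 0 := by
    apply Complex.ext
    · rw [Complex.re_sum]; simpa [hw] using hcos
    · rw [Complex.im_sum]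
      have : ∑ j, (w j).im = N * ∑ j : Fin (k + 1), (-1 : ℝ) ^ (k - (j : ℕ)) *
          (n j * Real.sin (n j * s)) := by
        rw [mul_sum]
      rw [this, hsin]; simp
  have hsign : ∀ m : ℕ, ((-1 : ℝ) ^ m) ^ 2 = 1 := fun m => by
    rw [← pow_mul, mul_comm, pow_mul]; norm_num
  have hnorm : ∀ j, ‖w j‖ ^ 2 = (n j : ℝ) ^ 4 * Real.cos (n j * s) ^ 2 +
      (N : ℝ) ^ 2 * (n j : ℝ) ^ 2 * Real.sin (n j * s) ^ 2 := by
    intro j
    rw [Complex.sq_norm, Complex.normSq_apply]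
    have := hsign (k - (j : ℕ))
    simp only [hw]
    linear_combination ((n j : ℝ) ^ 4 * Real.cos (n j * s) ^ 2 +
      (N : ℝ) ^ 2 * (n j : ℝ) ^ 2 * Real.sin (n j * s) ^ 2) * this
  have hgap : ∀ j, ((N : ℝ) * n j) ^ 2 - ‖w j‖ ^ 2 =
      (n j : ℝ) ^ 2 * Real.cos (n j * s) ^ 2 * ((N : ℝ) ^ 2 - (n j : ℝ) ^ 2) := by
    intro j
    rw [hnorm]
    have := Real.sin_sq_add_cos_sq (n j * s)
    linear_combination (-((N : ℝ) ^ 2 * (n j : ℝ) ^ 2)) * this
  have hle : ∀ j, (n j : ℝ) ≤ N := fun j => by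
    exact_mod_cast hn.monotone (Fin.le_last j)
  have hwle : ∀ j, ‖w j‖ ≤ N * n j := by
    intro j
    have h1 := hgap j
    have h2 : 0 ≤ (n j : ℝ) ^ 2 * Real.cos (n j * s) ^ 2 * ((N : ℝ) ^ 2 - (n j : ℝ) ^ 2) := by
      have : (n j : ℝ) ^ 2 ≤ (N : ℝ) ^ 2 := by
        exact pow_le_pow_left₀ (by positivity) (hle j) 2
      have h3 : 0 ≤ (N : ℝ) ^ 2 - (n j : ℝ) ^ 2 := by linarith
      positivity
    exact le_of_sq_le_sq (by linarith) (by positivity)
  have hlast : ‖w (Fin.last k)‖ = (N : ℝ) ^ 2 := by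
    have h1 := hgap (Fin.last k)
    rw [← hN, sub_self, mul_zero] at h1
    have h2 : ‖w (Fin.last k)‖ ^ 2 = ((N : ℝ) ^ 2) ^ 2 := by linarith
    exact (pow_left_inj₀ (norm_nonneg _) (by positivity) two_ne_zero).1 h2
  rw [Fin.sum_univ_castSucc] at hsum
  have hl : ‖w (Fin.last k)‖ ≤ ∑ j : Fin k, ‖w j.castSucc‖ := by
    have : w (Fin.last k) = -∑ j : Fin k, w j.castSucc := by linear_combination hsum
    rw [this, norm_neg]
    exact norm_sum_le _ _
  have hSr : ∑ j : Fin k, (n j.castSucc : ℝ) ≤ N := by exact_mod_cast hS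
  have htot : ∑ j : Fin k, ((N : ℝ) * n j.castSucc - ‖w j.castSucc‖) ≤ 0 := by
    rw [sum_sub_distrib, ← mul_sum]
    rw [hlast] at hl
    nlinarith
  have heach : ∀ j : Fin k, (N : ℝ) * n j.castSucc - ‖w j.castSucc‖ = 0 := by
    have hnn : ∀ j ∈ (univ : Finset (Fin k)), 0 ≤ (N : ℝ) * n j.castSucc - ‖w j.castSucc‖ :=
      fun j _ => by linarith [hwle j.castSucc]
    have h0' := (sum_eq_zero_iff_of_nonneg hnn).1 (le_antisymm htot (sum_nonneg hnn))
    exact fun j => h0' j (mem_univ j)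
  have hcos0 : ∀ j : Fin k, Real.cos (n j.castSucc * s) = 0 := by
    intro j
    have h1 := hgap j.castSucc
    have h2 : ‖w j.castSucc‖ = (N : ℝ) * n j.castSucc := by linarith [heach j]
    rw [h2, sub_self] at h1
    have hjpos : (0 : ℝ) < n j.castSucc := by
      exact_mod_cast lt_of_lt_of_le h0 (hn.monotone (Fin.zero_le _))
    have hjlt : (n j.castSucc : ℝ) < N := by exact_mod_cast hn (Fin.castSucc_lt_last j)
    have h3 : 0 < (N : ℝ) ^ 2 - (n j.castSucc : ℝ) ^ 2 := by nlinarith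
    have h4 : 0 < (n j.castSucc : ℝ) ^ 2 := by positivity
    have h5 : Real.cos (n j.castSucc * s) ^ 2 = 0 := by
      have h6 : (n j.castSucc : ℝ) ^ 2 * ((N : ℝ) ^ 2 - (n j.castSucc : ℝ) ^ 2) *
        Real.cos (n j.castSucc * s) ^ 2 = 0 := by linarith
      exact (mul_eq_zero.1 h6).resolve_left (mul_pos h4 h3).ne'
    exact pow_eq_zero_iff two_ne_zero |>.1 h5
  have hcosN : Real.cos (N * s) = 0 := by
    rw [Fin.sum_univ_castSucc] at hcos
    simp only [hcos0, mul_zero, sum_const_zero, zero_add] at hcos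
    simp only [Fin.val_last, Nat.sub_self, pow_zero, one_mul, ← hN] at hcos
    exact (mul_eq_zero.1 hcos).resolve_left (by positivity)
  unfold tr at hs
  rw [Fin.sum_univ_castSucc] at hs
  simp only [hcos0, mul_zero, sum_const_zero, zero_add, ← hN, hcosN, add_zero] at hs
  exact pow_ne_zero _ (by norm_num) hs

theorem exists_simple {k : ℕ} (n : Fin (k + 1) → ℕ) (hn : StrictMono n) (h0 : 0 < n 0)
    (hS : ∑ j : Fin k, n j.castSucc ≤ n (Fin.last k)) :
    ∃ ζ : ℂ, ‖ζ‖ = 1 ∧ (alexPoly n).rootMultiplicity ζ = 1 := by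
  obtain ⟨s, hs, hodd⟩ := exists_odd n hn h0
  have h3 := no_triple n hn h0 hS s hs
  refine ⟨_, Complex.norm_exp_ofReal_mul_I s, ?_⟩
  rcases hodd with ⟨m, hm⟩
  omega

end Pool.Agent.Helper82_Alex
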